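import Pool.Agent.Helper41.AN.Defs

/-!
# Project AN, module AN-5: the discriminant is a square of the prime field
-/

set_option autoImplicit false

namespace Pool.Agent.Helper41.AN

open Polynomial

namespace DiscAux

/-- Sum of the cardinalities of the final segments of `Fin n`. -/
theorem prod_neg_one {R : Type*} [CommRing R] (n : ℕ) :
    ∏ i : Fin n, ∏ _j ∈ Finset.Ioi i, (-1 : R) = (-1) ^ (n * (n - 1) / 2) := by
  have h1 : ∀ i : Fin n, ∏ _j ∈ Finset.Ioi i, (-1 : R) = (-1) ^ (n - 1 - (i : ℕ)) := by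
    intro i
    rw [Finset.prod_const, Fin.card_Ioi]
  rw [Finset.prod_congr rfl (fun i _ => h1 i), Finset.prod_pow_eq_pow_sum]
  congr 1
  rw [Fin.sum_univ_eq_sum_range (fun k => n - 1 - k) n, Finset.sum_range_reflect (fun k => k) n,
    Finset.sum_range_id]

/-- The square of the Vandermonde product. -/
theorem vandermonde_sq {R : Type*} [CommRing R] {n : ℕ} (y : Fin n → R) :
    (∏ i, ∏ j ∈ Finset.Ioi i, (y j - y i)) ^ 2 =
      (-1) ^ (n * (n - 1) / 2) * ∏ i, ∏ j ∈ {i}ᶜ, (y i - y j) := by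
  have h := Finset.prod_prod_Ioi_mul_eq_prod_prod_off_diag (fun a b : Fin n => y b - y a)
  rw [← h, ← prod_neg_one (R := R) n, ← Finset.prod_mul_distrib, ← Finset.prod_pow]
  refine Finset.prod_congr rfl (fun i _ => ?_)
  rw [← Finset.prod_mul_distrib, ← Finset.prod_pow]
  refine Finset.prod_congr rfl (fun j _ => ?_)
  ring

/-- The derivative of a product of linear factors at one of the roots. -/
theorem deriv_eval {R : Type*} [CommRing R] {n : ℕ} (y : Fin n → R) (i : Fin n) :
    (derivative (∏ j, (X - C (y j)))).eval (y i) = ∏ j ∈ {i}ᶜ, (y i - y j) := by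
  classical
  have h : (∏ j, (X - C (y j))) = (X - C (y i)) * ∏ j ∈ {i}ᶜ, (X - C (y j)) := by
    rw [← Finset.mul_prod_erase Finset.univ _ (Finset.mem_univ i)]
    congr 1
    apply Finset.prod_congr _ (fun _ _ => rfl)
    ext j
    simp
  rw [h, derivative_mul]
  simp [eval_prod]

variable {p : ℕ} [Fact p.Prime] {n : ℕ} (A : AData p n)

theorem isCoprime' : IsCoprime A.g A.D := by
  refine isCoprime_of_irreducible_dvd (fun h => A.D_monic.ne_zero h.2) ?_
  intro z hz hzg hzD
  have hzp : Prime z := hz.prime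
  obtain ⟨N, hN⟩ := A.dvd_pow
  have hz0 : z ∣ A.D₀ := hzp.dvd_of_dvd_pow (hzD.trans hN)
  obtain ⟨m, E, hE, hD⟩ := (WfDvdMonoid.max_power_factor (A.D_monic.ne_zero) hz)
  obtain ⟨g₁, hg₁⟩ := hzg
  obtain ⟨d₁, hd₁⟩ := hz0
  have hm : m ≠ 0 := by
    rintro rfl
    rw [pow_zero, one_mul] at hD
    exact hE (hD ▸ hzD)
  obtain ⟨m, rfl⟩ := Nat.exists_eq_succ_of_ne_zero hm
  rw [Nat.succ_eq_add_one] at hD
  apply hE
  have hrel := A.rel
  have hder : derivative A.D = z ^ m * (C (((m + 1 : ℕ) : ZMod p)) * derivative z * E +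
      z * derivative E) := by
    rw [hD, derivative_mul, derivative_pow_succ, pow_succ]
    simp only [Nat.cast_add, Nat.cast_one]
    generalize C ((m : ZMod p) + 1) = c
    ring
  generalize C (((m + 1 : ℕ) : ZMod p)) * derivative z * E + z * derivative E = W at hder
  generalize derivative A.g = G' at hrel
  rw [hder, hD, hg₁, hd₁] at hrel
  have h1 : z ^ (m + 1) * (C A.κ * E) = z ^ (m + 1) * (z * ((G' * E - g₁ * W) * d₁)) := by
    generalize C A.κ = c at hrel ⊢
    have e3 : z * g₁ * (z ^ m * W) = z ^ (m + 1) * (g₁ * W) := by ring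
    rw [e3] at hrel
    generalize z ^ (m + 1) = Z at hrel ⊢
    linear_combination -hrel
  have h2 := mul_left_cancel₀ (pow_ne_zero (m + 1) hz.ne_zero) h1
  have h3 : z ∣ C A.κ * E := ⟨_, h2⟩
  rcases hzp.dvd_or_dvd h3 with h | h
  · exfalso
    exact hz.not_isUnit (isUnit_of_dvd_unit h (isUnit_C.2 (isUnit_iff_ne_zero.2 A.κ_ne)))
  · exact h

theorem deriv_root' {S : Type*} [CommRing S] [IsDomain S] [Algebra (ZMod p)[X] S] (y : S)
    (hy : aeval y A.f = 0) :
    aeval y (derivative A.f) * aeval y (A.D₀.map C : (ZMod p)[X][X]) =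
      algebraMap (ZMod p)[X] S (C A.κ) := by
  set D' : (ZMod p)[X][X] := A.D.map C with hD'
  set g' : (ZMod p)[X][X] := A.g.map C with hg'
  set D₀' : (ZMod p)[X][X] := A.D₀.map C with hD₀'
  have hf : A.f = D' * (X ^ p - C X) + g' := rfl
  have hX : derivative ((X : (ZMod p)[X][X]) ^ p) = 0 := by
    rw [derivative_X_pow, CharP.cast_eq_zero, C_0, zero_mul]
  have hdf : derivative A.f = derivative D' * (X ^ p - C X) + derivative g' := by
    rw [hf, derivative_add, derivative_mul, derivative_sub, hX, derivative_C, sub_zero, mul_zero,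
      add_zero]
  have hrel : (derivative g' * D' - g' * derivative D') * D₀' = C (C A.κ) * D' := by
    have h := congrArg (Polynomial.map (C : ZMod p →+* (ZMod p)[X])) A.rel
    rw [Polynomial.map_mul, Polynomial.map_sub, Polynomial.map_mul, Polynomial.map_mul,
      Polynomial.map_mul, Polynomial.map_C, ← derivative_map, ← derivative_map] at h
    exact h
  have hcop : IsCoprime g' D' := (isCoprime' A).map (mapRingHom C)
  have hDy : aeval y D' ≠ 0 := by
    intro h0
    have hgy : aeval y g' = 0 := by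
      rw [hf, map_add, map_mul, h0, zero_mul, zero_add] at hy
      exact hy
    obtain ⟨u, v, huv⟩ := hcop
    have := congrArg (aeval y) huv
    simp [h0, hgy] at this
  have e1 : aeval y D' * (y ^ p - algebraMap (ZMod p)[X] S X) = - aeval y g' := by
    rw [hf] at hy
    simp only [map_add, map_mul, map_sub, map_pow, aeval_X, aeval_C] at hy
    linear_combination hy
  have e2 := congrArg (aeval y) hrel
  simp only [map_mul, map_sub, aeval_C] at e2
  have e3 : aeval y (derivative A.f) = aeval y (derivative D') *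
      (y ^ p - algebraMap (ZMod p)[X] S X) + aeval y (derivative g') := by
    rw [hdf]
    simp only [map_add, map_mul, map_sub, map_pow, aeval_X, aeval_C]
  apply mul_left_cancel₀ hDy
  rw [e3]
  linear_combination (aeval y (derivative D')) * (aeval y D₀') * e1 + e2

end DiscAux

variable {p : ℕ} [Fact p.Prime] {n : ℕ} (A : AData p n)

theorem AData.disc (hA : A.Sq) {L : Type} [Field L] [Algebra (ZMod p)[X] L] (y : Fin n → L)
    (hy : A.f.map (algebraMap (ZMod p)[X] L) = ∏ i, (X - C (y i))) :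
    ∃ d : ZMod p, (∏ i, ∏ j ∈ Finset.Ioi i, (y j - y i)) ^ 2 =
      algebraMap (ZMod p)[X] L (C d) ^ 2 := by
  classical
  obtain ⟨d, hd⟩ := hA
  refine ⟨d, ?_⟩
  -- the algebraically closed field
  let Ω := AlgebraicClosure L
  let ι : L →+* Ω := algebraMap L Ω
  let φ : ZMod p →+* L := (algebraMap (ZMod p)[X] L).comp C
  let _ : Algebra (ZMod p) Ω := (ι.comp φ).toAlgebra
  let ψ : AlgebraicClosure (ZMod p) →ₐ[ZMod p] Ω := IsAlgClosed.lift
  have hψ : ∀ a : ZMod p, ψ (algebraMap _ _ a) = ι (φ a) := fun a => ψ.commutes a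
  -- roots
  have hroot : ∀ i, aeval (y i) A.f = 0 := by
    intro i
    rw [aeval_def, eval₂_eq_eval_map, hy, eval_prod]
    exact Finset.prod_eq_zero (Finset.mem_univ i) (by simp)
  have hder : ∀ i, aeval (y i) (derivative A.f) = ∏ j ∈ {i}ᶜ, (y i - y j) := by
    intro i
    rw [aeval_def, eval₂_eq_eval_map, ← derivative_map, hy, DiscAux.deriv_eval]
  have hprod : (∏ i, ∏ j ∈ {i}ᶜ, (y i - y j)) *
      ∏ i, aeval (y i) (A.D₀.map C : (ZMod p)[X][X]) = φ A.κ ^ n := by
    rw [← Finset.prod_mul_distrib]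
    have : ∀ i ∈ (Finset.univ : Finset (Fin n)), (∏ j ∈ {i}ᶜ, (y i - y j)) *
        aeval (y i) (A.D₀.map C : (ZMod p)[X][X]) = φ A.κ := by
      intro i _
      rw [← hder i]
      exact DiscAux.deriv_root' A (y i) (hroot i)
    rw [Finset.prod_congr rfl this]
    simp
  -- the product of the values of D₀
  set B := A.D₀.aroots (AlgebraicClosure (ZMod p)) with hB
  have hsplit : A.D₀.map (algebraMap (ZMod p) (AlgebraicClosure (ZMod p))) =
      (B.map (fun b => X - C b)).prod := by
    have := (IsAlgClosed.splits (A.D₀.map (algebraMap (ZMod p)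
      (AlgebraicClosure (ZMod p))))).eq_prod_roots
    rw [this, (A.D₀_monic.map _).leadingCoeff, C_1, one_mul]
  have hval : ∀ z : Ω, A.D₀.eval₂ (ι.comp φ) z = (B.map (fun b => z - ψ b)).prod := by
    intro z
    have h1 : A.D₀.eval₂ (ι.comp φ) z =
        (A.D₀.map (algebraMap (ZMod p) (AlgebraicClosure (ZMod p)))).eval₂
          (ψ : AlgebraicClosure (ZMod p) →+* Ω) z := by
      rw [eval₂_map]
      congr 1
      ext a
      exact (hψ a).symm
    rw [h1, hsplit, eval₂_multiset_prod, Multiset.map_map]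
    congr 1
    apply Multiset.map_congr rfl
    intro b _
    simp
  have hD₀y : ∀ i, ι (aeval (y i) (A.D₀.map C : (ZMod p)[X][X])) =
      (B.map (fun b => ι (y i) - ψ b)).prod := by
    intro i
    rw [← hval, aeval_def, eval₂_map, hom_eval₂]
  have hfb : ∀ b ∈ B, ∏ i, (ι (y i) - ψ b) = ψ ((-1) ^ n * aeval b A.g) := by
    intro b hb
    have hb0 : aeval b A.D₀ = 0 := by
      rw [hB, mem_aroots] at hb
      exact hb.2
    have hbD : aeval b A.D = 0 := by
      obtain ⟨c, hc⟩ := A.D₀_dvd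
      rw [hc, map_mul, hb0, zero_mul]
    have h1 : ∏ i, (ι (y i) - ψ b) = (-1) ^ n * ∏ i, (ψ b - ι (y i)) := by
      have : ((-1 : Ω)) ^ n = ∏ _i : Fin n, (-1 : Ω) := by simp
      rw [this, ← Finset.prod_mul_distrib]
      apply Finset.prod_congr rfl
      intro i _
      ring
    have h2 : ∏ i, (ψ b - ι (y i)) = A.f.eval₂ (ι.comp (algebraMap (ZMod p)[X] L)) (ψ b) := by
      rw [← eval₂_map, hy, eval₂_finsetProd]
      apply Finset.prod_congr rfl
      intro i _
      simp
    have h3 : ∀ P : (ZMod p)[X], (P.map C : (ZMod p)[X][X]).eval₂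
        (ι.comp (algebraMap (ZMod p)[X] L)) (ψ b) = ψ (aeval b P) := by
      intro P
      rw [eval₂_map, ← AlgHom.coe_toRingHom, aeval_def, hom_eval₂]
      congr 1
      ext a
      exact (hψ a).symm
    rw [h1, h2]
    have h4 : A.f.eval₂ (ι.comp (algebraMap (ZMod p)[X] L)) (ψ b) = ψ (aeval b A.g) := by
      have : A.f = A.D.map C * (X ^ p - C X) + A.g.map C := rfl
      rw [this, eval₂_add, eval₂_mul, h3, h3, hbD, map_zero, zero_mul, zero_add]
    rw [h4]
    simp
  have hP : ∏ i, ι (aeval (y i) (A.D₀.map C : (ZMod p)[X][X])) =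
      ψ ((B.map (fun b => (-1) ^ n * aeval b A.g)).prod) := by
    rw [Finset.prod_congr rfl (fun i _ => hD₀y i), map_multiset_prod, Multiset.map_map]
    have h1 : ∏ i, (B.map (fun b => ι (y i) - ψ b)).prod =
        (B.map (fun b => ∏ i, (ι (y i) - ψ b))).prod := by
      rw [Multiset.prod_map_prod]
    rw [h1]
    congr 1
    apply Multiset.map_congr rfl
    intro b hb
    exact hfb b hb
  -- the conclusion
  have hs : ψ (algebraMap _ _ d) ^ 2 *
      ψ ((B.map (fun b => (-1) ^ n * aeval b A.g)).prod) =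
      (-1) ^ (n * (n - 1) / 2) * ι (φ A.κ) ^ n := by
    have := congrArg ψ hd
    rw [map_mul, map_pow, map_mul, map_pow, map_pow, map_neg, map_one, hψ A.κ] at this
    exact this
  have hΔ : ι ((∏ i, ∏ j ∈ Finset.Ioi i, (y j - y i)) ^ 2) *
      ∏ i, ι (aeval (y i) (A.D₀.map C : (ZMod p)[X][X])) =
      (-1) ^ (n * (n - 1) / 2) * ι (φ A.κ) ^ n := by
    rw [DiscAux.vandermonde_sq, ← map_prod, ← map_mul, mul_assoc, hprod]
    simp
  have hκ : (-1 : Ω) ^ (n * (n - 1) / 2) * ι (φ A.κ) ^ n ≠ 0 := by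
    apply mul_ne_zero (pow_ne_zero _ (neg_ne_zero.2 one_ne_zero))
    apply pow_ne_zero
    rw [_root_.map_ne_zero, _root_.map_ne_zero]
    exact A.κ_ne
  have hne : ∏ i, ι (aeval (y i) (A.D₀.map C : (ZMod p)[X][X])) ≠ 0 := by
    intro h
    rw [h, mul_zero] at hΔ
    exact hκ hΔ.symm
  apply ι.injective
  apply mul_right_cancel₀ hne
  rw [hΔ, ← hs, hP, hψ d, map_pow]
  rfl

end Pool.Agent.Helper41.AN
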